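import Pool.Agent.R852.BC.Main
import Pool.Agent.H568.GR.Stm

/-!
# Burgess' bound for the sums of `(D / n)` over odd `n`
-/

set_option autoImplicit false

namespace Pool.Agent.NH20.SD

open Finset Filter Pool.Agent.H471R4.BW Pool.Agent.R852.BC

/-- the symbol `(D / n)` for odd `n` as a character modulo `8 q` -/
theorem exists_theta (D : ℤ) (a q : ℕ) (hq : Odd q) (hD : D.natAbs = 2 ^ a * q) :
    ∃ θ : MulChar (ZMod 8) ℤ, ∀ n : ℕ, Odd n →
      jacobiSym D n = θ (n : ZMod 8) * jacobiSym (n : ℤ) q := by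
  obtain ⟨s, hDs⟩ : ∃ s : ℕ, D = (-1) ^ s * (2 ^ a * (q : ℤ)) := by
    have h1 : ((D.natAbs : ℕ) : ℤ) = 2 ^ a * (q : ℤ) := by
      rw [hD]; push_cast; ring
    rcases Int.natAbs_eq D with h | h
    · exact ⟨0, by rw [← h1, pow_zero, one_mul]; exact h⟩
    · refine ⟨1, ?_⟩
      rw [← h1, pow_one, neg_one_mul]
      exact h
  set k : ℕ := if q % 4 = 3 then 1 else 0 with hk
  refine ⟨chi4' ^ (s + k) * ZMod.χ₈ ^ a, fun l hlodd => ?_⟩
  have hu : IsUnit (l : ZMod 8) := by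
    rw [ZMod.isUnit_iff_coprime]
    have : Nat.Coprime l (2 ^ 3) := Nat.Coprime.pow_right 3 (Nat.coprime_two_right.mpr hlodd)
    simpa using this
  have e2 : jacobiSym D l = ZMod.χ₄ (l : ZMod 4) ^ s * (ZMod.χ₈ (l : ZMod 8) ^ a *
      jacobiSym (q : ℤ) l) := by
    rw [hDs, jacobiSym.mul_left, jacobiSym.mul_left, jacobiSym.pow_left (-1),
      jacobiSym.at_neg_one hlodd, jacobiSym.pow_left 2, jacobiSym.at_two hlodd]
  have e3 := recip q l hq hlodd
  have e4 : (chi4' ^ (s + k) * ZMod.χ₈ ^ a : MulChar (ZMod 8) ℤ) (l : ZMod 8) =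
      ZMod.χ₄ (l : ZMod 4) ^ (s + k) * ZMod.χ₈ (l : ZMod 8) ^ a := by
    rw [MulChar.mul_apply]
    have p1 : ∀ (χ : MulChar (ZMod 8) ℤ) (n : ℕ), (χ ^ n) (l : ZMod 8) = χ (l : ZMod 8) ^ n := by
      intro χ n
      induction n with
      | zero => rw [pow_zero, pow_zero, MulChar.one_apply hu]
      | succ n ih => rw [pow_succ, pow_succ, MulChar.mul_apply, ih]
    rw [p1, p1, chi4'_nat l hlodd]
  rw [e4, e2, e3]
  have e5 : ZMod.χ₄ (l : ZMod 4) ^ k = if q % 4 = 3 then ZMod.χ₄ (l : ZMod 4) else 1 := by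
    rw [hk]
    split_ifs <;> simp
  rw [pow_add, e5]
  ring

/-- the sum over odd `n` as a character sum -/
theorem sum_eq_short (D : ℤ) (q : ℕ) [NeZero q] (θ : MulChar (ZMod 8) ℤ)
    (hθ : ∀ n : ℕ, Odd n → jacobiSym D n = θ (n : ZMod 8) * jacobiSym (n : ℤ) q) (x : ℕ) :
    ((∑ n ∈ (Icc 1 x).filter (fun n => Odd n), ((jacobiSym D n : ℤ) : ℝ) : ℝ) : ℂ) =
      shortSum (8 * q) (chi 8 q (psi θ)) x := by
  unfold shortSum
  rw [sum_filter]
  push_cast
  apply sum_congr rfl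
  intro n _
  rw [chi_nat, psi_apply, jchar_apply]
  split_ifs with h
  · rw [hθ n h]
    push_cast
    ring
  · have hu : ¬ IsUnit (n : ZMod 8) := by
      rw [ZMod.isUnit_iff_coprime]
      intro hc
      apply h
      have h2 : Nat.Coprime n 2 := Nat.Coprime.coprime_dvd_right (by norm_num) hc
      rwa [Nat.coprime_two_right] at h2
    rw [MulChar.map_nonunit _ hu]
    simp

theorem ev_ge (C a : ℝ) (ha : 0 < a) : ∀ᶠ P : ℝ in atTop, C ≤ P ^ a :=
  (tendsto_rpow_atTop ha).eventually_ge_atTop C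

/-- **Burgess' bound for all real characters**, in the form of the hypothesis of `mnb_all` -/
theorem burg_cs (η : ℝ) (hη : 0 < η) (hη1 : η ≤ 1 / 4) : ∃ δ P0 : ℝ, 0 < δ ∧
    ∀ (D : ℤ) (a q : ℕ), P0 ≤ |(D : ℝ)| → a ≤ 3 → Odd q → Squarefree q →
      D.natAbs = 2 ^ a * q →
      ∀ x : ℕ, |∑ n ∈ (Icc 1 x).filter (fun n => Odd n), ((jacobiSym D n : ℤ) : ℝ)| ≤
        |(D : ℝ)| ^ (-δ) * (x + |(D : ℝ)| ^ (1 / 4 + η)) := by
  obtain ⟨δ1, hδ1, hb⟩ := bur8 (η / 4) (by positivity)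
  obtain ⟨q0, hq0⟩ := eventually_atTop.1 hb
  set δ : ℝ := min (δ1 / 4) (η / 4) with hδ
  have hδ0 : 0 < δ := lt_min (by positivity) (by positivity)
  have hδa : δ ≤ δ1 / 4 := min_le_left _ _
  have hδb : δ ≤ η / 4 := min_le_right _ _
  -- eventual inequalities
  have E : ∀ᶠ P : ℝ in atTop, 16 ≤ P ∧ (q0 : ℝ) ≤ P ∧ 8 ≤ P ^ (η / 4) ∧
      4 * (1 + Real.log (8 * P)) * 8 ≤ P ^ (δ1 / 4) ∧ 8 ≤ P ^ (δ1 / 4) := by
    have hlog : ∀ᶠ P : ℝ in atTop, 4 * (1 + Real.log (8 * P)) * 8 ≤ P ^ (δ1 / 4) := by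
      have h1 := (isLittleO_log_rpow_atTop (show 0 < δ1 / 8 by positivity)).bound
        (show (0 : ℝ) < 1 by norm_num)
      filter_upwards [h1, ev_ge (32 * (1 + Real.log 8)) (δ1 / 8) (by positivity),
        ev_ge 64 (δ1 / 8) (by positivity), eventually_ge_atTop 1] with P h1 h2 h3 h4
      have hP0 : 0 < P := by linarith
      have hl0 : 0 ≤ Real.log P := Real.log_nonneg h4
      rw [Real.norm_of_nonneg hl0, Real.norm_of_nonneg (by positivity), one_mul] at h1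
      rw [Real.log_mul (by norm_num) hP0.ne']
      have h5 : P ^ (δ1 / 4) = P ^ (δ1 / 8) * P ^ (δ1 / 8) := by
        rw [← Real.rpow_add hP0]; congr 1; ring
      rw [h5]
      nlinarith
    exact (eventually_ge_atTop 16).and ((eventually_ge_atTop _).and
      ((ev_ge 8 _ (by positivity)).and (hlog.and (ev_ge 8 _ (by positivity)))))
  obtain ⟨P0, hP0⟩ := eventually_atTop.1 E
  refine ⟨δ, P0, hδ0, fun D a q hDP ha hqo hqs hDq x => ?_⟩
  obtain ⟨g1, g2, g3, g4, g5⟩ := hP0 _ hDP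
  set P := |(D : ℝ)| with hPd
  have hPp : 0 < P := by linarith
  have hP1 : 1 ≤ P := by linarith
  have hPq : P = (2 : ℝ) ^ a * q := by
    have h2 : ((D.natAbs : ℕ) : ℝ) = P := by rw [hPd, Nat.cast_natAbs, Int.cast_abs]
    rw [← h2, hDq]
    push_cast
    ring
  have h2a : (1 : ℝ) ≤ 2 ^ a := one_le_pow₀ (by norm_num)
  have h2b : (2 : ℝ) ^ a ≤ 8 := by
    calc (2 : ℝ) ^ a ≤ 2 ^ 3 := pow_le_pow_right₀ (by norm_num) ha
      _ = 8 := by norm_num
  have hq00 : (0 : ℝ) ≤ q := Nat.cast_nonneg q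
  have hqP : (q : ℝ) ≤ P := by nlinarith
  have hPq8 : P ≤ 8 * q := by nlinarith
  have hq2 : 2 ≤ q := by
    have : (2 : ℝ) ≤ q := by linarith
    exact_mod_cast this
  haveI : NeZero q := ⟨by omega⟩
  haveI : NeZero (8 * q) := ⟨by omega⟩
  obtain ⟨θ, hθ⟩ := exists_theta D a q hqo hDq
  have hS := sum_eq_short D q θ hθ x
  have hnorm : |∑ n ∈ (Icc 1 x).filter (fun n => Odd n), ((jacobiSym D n : ℤ) : ℝ)| =
      ‖shortSum (8 * q) (chi 8 q (psi θ)) x‖ := by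
    rw [← hS, Complex.norm_real, Real.norm_eq_abs]
  rw [hnorm]
  set M : ℝ := ((8 * q : ℕ) : ℝ) with hM
  have hMP : P ≤ M := by rw [hM]; push_cast; exact hPq8
  have hM8 : M ≤ 8 * P := by rw [hM]; push_cast; linarith
  have hM0 : 0 < M := by linarith
  have hM1 : 1 ≤ M := by linarith
  have hx0 : (0 : ℝ) ≤ x := Nat.cast_nonneg x
  have hPδ : 0 < P ^ (-δ) := Real.rpow_pos_of_pos hPp _
  have hPη : 0 < P ^ (1 / 4 + η) := Real.rpow_pos_of_pos hPp _
  rcases lt_or_ge (x : ℝ) (M ^ (1 / 4 + η / 4)) with hx | hx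
  · -- trivial bound
    have h1 : ‖shortSum (8 * q) (chi 8 q (psi θ)) x‖ ≤ x := shortSum_triv _ _
    have h2 : M ^ (1 / 4 + η / 4) ≤ P ^ (-δ) * P ^ (1 / 4 + η) := by
      calc M ^ (1 / 4 + η / 4) ≤ (8 * P) ^ (1 / 4 + η / 4) :=
            Real.rpow_le_rpow hM0.le hM8 (by positivity)
        _ = 8 ^ (1 / 4 + η / 4) * P ^ (1 / 4 + η / 4) :=
            Real.mul_rpow (by norm_num) hPp.le
        _ ≤ 8 ^ (1 : ℝ) * P ^ (1 / 4 + η / 4) := by
            apply mul_le_mul_of_nonneg_right _ (by positivity)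
            exact Real.rpow_le_rpow_of_exponent_le (by norm_num) (by linarith)
        _ ≤ P ^ (η / 4) * P ^ (1 / 4 + η / 4) := by
            apply mul_le_mul_of_nonneg_right _ (by positivity)
            rw [Real.rpow_one]
            exact g3
        _ = P ^ (1 / 4 + η / 2) := by
            rw [← Real.rpow_add hPp]; congr 1; ring
        _ ≤ P ^ (-δ + (1 / 4 + η)) := Real.rpow_le_rpow_of_exponent_le hP1 (by linarith)
        _ = _ := Real.rpow_add hPp _ _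
    calc ‖shortSum (8 * q) (chi 8 q (psi θ)) x‖ ≤ x := h1
      _ ≤ P ^ (-δ) * P ^ (1 / 4 + η) := hx.le.trans h2
      _ ≤ P ^ (-δ) * (x + P ^ (1 / 4 + η)) := by
          apply mul_le_mul_of_nonneg_left _ hPδ.le
          linarith
  rcases le_or_gt (x : ℝ) (M ^ (1 / 2 + δ1)) with hx2 | hx2
  · -- Burgess
    have hqq : q0 ≤ 8 * q := by
      have : (q0 : ℝ) ≤ M := g2.trans hMP
      rw [hM] at this
      exact_mod_cast this
    have h1 := hq0 (8 * q) hqq q rfl hqo hqs (psi θ) x hx hx2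
    refine h1.trans ?_
    have h2 : M ^ (-δ1) ≤ P ^ (-δ) := by
      calc M ^ (-δ1) ≤ P ^ (-δ1) := Real.rpow_le_rpow_of_nonpos hPp hMP (by linarith)
        _ ≤ P ^ (-δ) := Real.rpow_le_rpow_of_exponent_le hP1 (by linarith)
    calc M ^ (-δ1) * x ≤ P ^ (-δ) * x := mul_le_mul_of_nonneg_right h2 hx0
      _ ≤ P ^ (-δ) * (x + P ^ (1 / 4 + η)) := by
          apply mul_le_mul_of_nonneg_left _ hPδ.le
          linarith
  · -- Pólya-Vinogradov
    have hχ : chi 8 q (psi θ) ≠ 1 := chi_ne_one q hqo hqs θ (fun h => by omega)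
    have h1 := Pool.Agent.H38R2.CG.PVh.sum_le (8 * q) (chi 8 q (psi θ)) (by omega) hχ x
    have h2 : ‖shortSum (8 * q) (chi 8 q (psi θ)) x‖ ≤ 4 * √M * (1 + Real.log M) := h1
    refine h2.trans ?_
    have hlog : 0 ≤ Real.log M := Real.log_nonneg hM1
    have hlogM : Real.log M ≤ Real.log (8 * P) := Real.log_le_log hM0 hM8
    have e1 : M ^ (1 / 2 + δ1) = √M * M ^ δ1 := by
      rw [Real.rpow_add hM0, Real.sqrt_eq_rpow]
    have h3 : 4 * (1 + Real.log M) ≤ M ^ δ1 * P ^ (-δ) := by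
      have h4 : 4 * (1 + Real.log M) ≤ P ^ (δ1 / 4) := by
        have : 0 ≤ 4 * (1 + Real.log (8 * P)) := by
          have := hlog.trans hlogM
          linarith
        linarith
      have h5 : P ^ (δ1 / 4) ≤ M ^ δ1 * P ^ (-δ) := by
        calc P ^ (δ1 / 4) ≤ P ^ (δ1 + -δ) := Real.rpow_le_rpow_of_exponent_le hP1 (by linarith)
          _ = P ^ δ1 * P ^ (-δ) := Real.rpow_add hPp _ _
          _ ≤ M ^ δ1 * P ^ (-δ) := by
              apply mul_le_mul_of_nonneg_right _ hPδ.le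
              exact Real.rpow_le_rpow hPp.le hMP hδ1.le
      exact h4.trans h5
    have hsq : 0 ≤ √M := Real.sqrt_nonneg _
    calc 4 * √M * (1 + Real.log M) = √M * (4 * (1 + Real.log M)) := by ring
      _ ≤ √M * (M ^ δ1 * P ^ (-δ)) := mul_le_mul_of_nonneg_left h3 hsq
      _ = M ^ (1 / 2 + δ1) * P ^ (-δ) := by rw [e1]; ring
      _ ≤ x * P ^ (-δ) := mul_le_mul_of_nonneg_right hx2.le hPδ.le
      _ ≤ P ^ (-δ) * (x + P ^ (1 / 4 + η)) := by
          rw [mul_comm]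
          apply mul_le_mul_of_nonneg_left _ hPδ.le
          linarith

end Pool.Agent.NH20.SD
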