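import Pool.Agent.H568.GR.Stm

/-!
# From many squarefree products of split primes to many split primes (Rankin's trick)
-/

set_option autoImplicit false

namespace Pool.Agent.NH20.SD

open Finset Filter Real Pool.Agent.H568.GR

/-- the odd primes `p ≤ N` with `(D / p) = 1` -/
noncomputable def SPl (D : ℤ) (N : ℕ) : Finset ℕ := by
  classical
  exact (Finset.Icc 1 N).filter (fun p => p.Prime ∧ p ≠ 2 ∧ jacobiSym D p = 1)

theorem mem_SPl {D : ℤ} {N p : ℕ} : p ∈ SPl D N ↔ p ≤ N ∧ p.Prime ∧ p ≠ 2 ∧ jacobiSym D p = 1 := by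
  unfold SPl
  simp only [mem_filter, mem_Icc]
  constructor
  · rintro ⟨⟨-, h2⟩, h3⟩; exact ⟨h2, h3⟩
  · rintro ⟨h2, h3⟩; exact ⟨⟨h3.1.pos, h2⟩, h3⟩

theorem mem_MM {D : ℤ} {N n : ℕ} : n ∈ MM D N ↔ 1 ≤ n ∧ n ≤ N ∧ Squarefree n ∧
    ∀ p : ℕ, p.Prime → p ∣ n → p ≠ 2 ∧ jacobiSym D p = 1 := by
  unfold MM
  simp only [mem_filter, mem_Icc]
  tauto

/-- `j ^ (p - 1) ≤ (j ^ p - (j - 1) ^ p) / p` -/
theorem step_le (p : ℝ) (hp : 0 < p) (hp1 : p ≤ 1) (j : ℕ) :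
    p * ((j + 1 : ℕ) : ℝ) ^ (p - 1) ≤ ((j + 1 : ℕ) : ℝ) ^ p - (j : ℝ) ^ p := by
  have hj : (0 : ℝ) < ((j + 1 : ℕ) : ℝ) := by positivity
  have h1 : (1 + (-(1 / ((j + 1 : ℕ) : ℝ)))) ^ p ≤ 1 + p * (-(1 / ((j + 1 : ℕ) : ℝ))) := by
    apply rpow_one_add_le_one_add_mul_self _ hp.le hp1
    have : 1 / ((j + 1 : ℕ) : ℝ) ≤ 1 := by
      rw [div_le_one hj]
      push_cast
      linarith [(Nat.cast_nonneg j : (0 : ℝ) ≤ j)]
    linarith
  have h2 : (1 + (-(1 / ((j + 1 : ℕ) : ℝ)))) = (j : ℝ) / ((j + 1 : ℕ) : ℝ) := by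
    field_simp
    push_cast
    ring
  rw [h2, div_rpow (Nat.cast_nonneg j) hj.le] at h1
  have h3 : 0 < ((j + 1 : ℕ) : ℝ) ^ p := rpow_pos_of_pos hj p
  rw [div_le_iff₀ h3] at h1
  have h4 : ((j + 1 : ℕ) : ℝ) ^ (p - 1) = ((j + 1 : ℕ) : ℝ) ^ p / ((j + 1 : ℕ) : ℝ) := by
    rw [rpow_sub_one hj.ne']
  rw [h4]
  have h5 : (1 + p * (-(1 / ((j + 1 : ℕ) : ℝ)))) * ((j + 1 : ℕ) : ℝ) ^ p =
      ((j + 1 : ℕ) : ℝ) ^ p - p * (((j + 1 : ℕ) : ℝ) ^ p / ((j + 1 : ℕ) : ℝ)) := by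
    ring
  linarith

theorem sum_pow_le (p : ℝ) (hp : 0 < p) (hp1 : p ≤ 1) (R : ℕ) :
    ∑ j ∈ Icc 1 R, (j : ℝ) ^ (p - 1) ≤ (R : ℝ) ^ p / p := by
  induction R with
  | zero =>
    simp only [zero_lt_one, Icc_eq_empty_of_lt, sum_empty, Nat.cast_zero]
    positivity
  | succ R ih =>
    rw [Finset.sum_Icc_succ_top (by omega)]
    have h := step_le p hp hp1 R
    have h2 : ((R + 1 : ℕ) : ℝ) ^ (p - 1) ≤ (((R + 1 : ℕ) : ℝ) ^ p - (R : ℝ) ^ p) / p := by
      rw [le_div_iff₀ hp]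
      linarith
    have h3 : (((R + 1 : ℕ) : ℝ) ^ p - (R : ℝ) ^ p) / p = ((R + 1 : ℕ) : ℝ) ^ p / p - (R : ℝ) ^ p / p := by
      ring
    linarith

/-- the sum over a set of positive integers -/
theorem sum_set_le (p : ℝ) (hp : 0 < p) (hp1 : p ≤ 1) (S : Finset ℕ) (hS : ∀ n ∈ S, 1 ≤ n) :
    ∑ n ∈ S, (n : ℝ) ^ (p - 1) ≤ (1 / p + 1) * (S.card : ℝ) ^ p := by
  classical
  set R := S.card with hR
  rcases Nat.eq_zero_or_pos R with h0 | h0
  · have : S = ∅ := card_eq_zero.1 (hR ▸ h0)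
    rw [this, sum_empty]
    positivity
  have hR0 : (0 : ℝ) < R := by exact_mod_cast h0
  rw [← sum_filter_add_sum_filter_not S (fun n => n ≤ R)]
  have h1 : ∑ n ∈ S.filter (fun n => n ≤ R), (n : ℝ) ^ (p - 1) ≤ (R : ℝ) ^ p / p := by
    refine le_trans ?_ (sum_pow_le p hp hp1 R)
    apply sum_le_sum_of_subset_of_nonneg
    · intro n hn
      rw [mem_filter] at hn
      rw [mem_Icc]
      exact ⟨hS n hn.1, hn.2⟩
    · intro n _ _
      positivity
  have h2 : ∑ n ∈ S.filter (fun n => ¬ n ≤ R), (n : ℝ) ^ (p - 1) ≤ (R : ℝ) ^ p := by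
    calc ∑ n ∈ S.filter (fun n => ¬ n ≤ R), (n : ℝ) ^ (p - 1)
        ≤ ∑ n ∈ S.filter (fun n => ¬ n ≤ R), (R : ℝ) ^ (p - 1) := by
          apply sum_le_sum
          intro n hn
          rw [mem_filter] at hn
          apply rpow_le_rpow_of_nonpos hR0 _ (by linarith)
          have : R ≤ n := by omega
          exact_mod_cast this
      _ = ((S.filter (fun n => ¬ n ≤ R)).card : ℝ) * (R : ℝ) ^ (p - 1) := by
          rw [sum_const, nsmul_eq_mul]
      _ ≤ (R : ℝ) * (R : ℝ) ^ (p - 1) := by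
          apply mul_le_mul_of_nonneg_right _ (by positivity)
          exact_mod_cast card_filter_le _ _
      _ = (R : ℝ) ^ p := by
          rw [← rpow_one_add' hR0.le (by linarith)]
          congr 1
          ring
  have h3 : (1 / p + 1) * (R : ℝ) ^ p = (R : ℝ) ^ p / p + (R : ℝ) ^ p := by ring
  linarith

/-- Rankin's bound -/
theorem rankin (D : ℤ) (N : ℕ) (p : ℝ) (hp : 0 < p) (hp1 : p ≤ 1) :
    ((MM D N).card : ℝ) ≤ (N : ℝ) ^ (1 - p) * exp ((1 / p + 1) * ((SPl D N).card : ℝ) ^ p) := by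
  classical
  have key : ∑ n ∈ MM D N, (n : ℝ) ^ (p - 1) ≤ ∏ q ∈ SPl D N, (1 + (q : ℝ) ^ (p - 1)) := by
    rw [Finset.prod_one_add]
    have hinj : Set.InjOn (fun n : ℕ => n.primeFactors) (MM D N : Set ℕ) := by
      intro a ha b hb hab
      have ha' := (mem_MM.1 (mem_coe.1 ha))
      have hb' := (mem_MM.1 (mem_coe.1 hb))
      simp only at hab
      rw [← Nat.prod_primeFactors_of_squarefree ha'.2.2.1,
        ← Nat.prod_primeFactors_of_squarefree hb'.2.2.1, hab]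
    have h1 : ∑ n ∈ MM D N, (n : ℝ) ^ (p - 1) =
        ∑ s ∈ (MM D N).image (fun n : ℕ => n.primeFactors), ∏ q ∈ s, (q : ℝ) ^ (p - 1) := by
      rw [sum_image hinj]
      apply sum_congr rfl
      intro n hn
      have h := mem_MM.1 hn
      have h2 : (n : ℝ) = ∏ q ∈ n.primeFactors, (q : ℝ) := by
        conv_lhs => rw [← Nat.prod_primeFactors_of_squarefree h.2.2.1]
        push_cast
        rfl
      conv_lhs => rw [h2]
      rw [← Real.finsetProd_rpow _ _ (fun i _ => Nat.cast_nonneg i)]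
    rw [h1]
    apply sum_le_sum_of_subset_of_nonneg
    · intro s hs
      rw [mem_image] at hs
      obtain ⟨n, hn, rfl⟩ := hs
      rw [mem_powerset]
      intro q hq
      have h := mem_MM.1 hn
      have hqp := Nat.prime_of_mem_primeFactors hq
      have hqd := Nat.dvd_of_mem_primeFactors hq
      rw [mem_SPl]
      exact ⟨(Nat.le_of_dvd (by omega) hqd).trans h.2.1, hqp, h.2.2.2 q hqp hqd⟩
    · intro s _ _
      exact prod_nonneg fun q _ => by positivity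
  have h2 : ∏ q ∈ SPl D N, (1 + (q : ℝ) ^ (p - 1)) ≤
      exp ((1 / p + 1) * ((SPl D N).card : ℝ) ^ p) := by
    calc ∏ q ∈ SPl D N, (1 + (q : ℝ) ^ (p - 1)) ≤ ∏ q ∈ SPl D N, exp ((q : ℝ) ^ (p - 1)) := by
          apply Finset.prod_le_prod
          · intro q _
            positivity
          · intro q _
            have := add_one_le_exp ((q : ℝ) ^ (p - 1))
            linarith
      _ = exp (∑ q ∈ SPl D N, (q : ℝ) ^ (p - 1)) := (exp_sum _ _).symm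
      _ ≤ _ := by
          apply exp_le_exp.2
          apply sum_set_le p hp hp1
          intro n hn
          exact (mem_SPl.1 hn).2.1.pos
  have h3 : ((MM D N).card : ℝ) ≤ (N : ℝ) ^ (1 - p) * ∑ n ∈ MM D N, (n : ℝ) ^ (p - 1) := by
    rw [mul_sum, ← nsmul_one, ← sum_const]
    apply sum_le_sum
    intro n hn
    have h := mem_MM.1 hn
    have hn0 : (0 : ℝ) < n := by exact_mod_cast h.1
    have hnN : (n : ℝ) ≤ N := by exact_mod_cast h.2.1
    calc (1 : ℝ) = (n : ℝ) ^ (1 - p) * (n : ℝ) ^ (p - 1) := by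
          rw [← rpow_add hn0]
          simp
      _ ≤ (N : ℝ) ^ (1 - p) * (n : ℝ) ^ (p - 1) := by
          apply mul_le_mul_of_nonneg_right _ (by positivity)
          exact rpow_le_rpow hn0.le hnN (by linarith)
  refine h3.trans (mul_le_mul_of_nonneg_left (key.trans h2) (by positivity))

/-- many squarefree products give many primes -/
theorem many (θ ε A : ℝ) (hε : 0 < ε) (hθ : ε ≤ θ / 8) (hA : 1 ≤ A) (hεA : ε ≤ θ / (2 * A)) :
    ∀ᶠ P : ℝ in atTop, ∀ D : ℤ,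
      P ^ (θ - ε / 2) ≤ (MM D ⌊P ^ (θ - ε / 4)⌋₊).card →
      log P ^ A ≤ ((SPl D ⌊P ^ (θ - ε / 4)⌋₊).card : ℝ) := by
  have hθ0 : 0 < θ := by linarith
  have hA0 : 0 < A := by linarith
  obtain ⟨p, hp⟩ : ∃ p : ℝ, p = 1 / (2 * A) := ⟨_, rfl⟩
  have hp0 : 0 < p := by rw [hp]; positivity
  have hp1 : p ≤ 1 := by
    rw [hp, div_le_one (by positivity)]
    linarith
  have hAp : A * p = 1 / 2 := by rw [hp]; field_simp
  have hεp : ε ≤ θ * p := by
    rw [hp]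
    have : θ * (1 / (2 * A)) = θ / (2 * A) := by ring
    rw [this]
    exact hεA
  -- the gain
  have hgain : 0 < (θ - ε / 2) - (θ - ε / 4) * (1 - p) := by nlinarith
  obtain ⟨g, hg⟩ : ∃ g : ℝ, g = (θ - ε / 2) - (θ - ε / 4) * (1 - p) := ⟨_, rfl⟩
  rw [← hg] at hgain
  have hev : ∀ᶠ L : ℝ in atTop, (1 / p + 1) * L ^ (1 / 2 : ℝ) < g * L := by
    filter_upwards [(tendsto_rpow_atTop (show (0 : ℝ) < 1 / 2 by norm_num)).eventually_gt_atTop
      ((1 / p + 1) / g), eventually_gt_atTop 0] with L hL hL0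
    rw [div_lt_iff₀ hgain] at hL
    have h1 : L = L ^ (1 / 2 : ℝ) * L ^ (1 / 2 : ℝ) := by
      rw [← rpow_add hL0]
      norm_num
    have h2 : 0 < L ^ (1 / 2 : ℝ) := rpow_pos_of_pos hL0 _
    calc (1 / p + 1) * L ^ (1 / 2 : ℝ) < (L ^ (1 / 2 : ℝ) * g) * L ^ (1 / 2 : ℝ) :=
          mul_lt_mul_of_pos_right hL h2
      _ = g * (L ^ (1 / 2 : ℝ) * L ^ (1 / 2 : ℝ)) := by ring
      _ = g * L := by rw [← h1]
  filter_upwards [tendsto_log_atTop.eventually hev, eventually_gt_atTop 1] with P hP hP1 D hM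
  by_contra hcon
  push Not at hcon
  have hL0 : 0 < log P := log_pos hP1
  have hP0 : 0 < P := by linarith
  set N := ⌊P ^ (θ - ε / 4)⌋₊ with hN
  have hNle : (N : ℝ) ≤ P ^ (θ - ε / 4) := Nat.floor_le (by positivity)
  have h1 := rankin D N p hp0 hp1
  have h2 : ((SPl D N).card : ℝ) ^ p ≤ log P ^ (1 / 2 : ℝ) := by
    calc ((SPl D N).card : ℝ) ^ p ≤ (log P ^ A) ^ p := rpow_le_rpow (by positivity) hcon.le hp0.le
      _ = log P ^ (1 / 2 : ℝ) := by rw [← rpow_mul hL0.le, hAp]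
  have h3 : (N : ℝ) ^ (1 - p) ≤ P ^ ((θ - ε / 4) * (1 - p)) := by
    rw [rpow_mul hP0.le]
    exact rpow_le_rpow (by positivity) hNle (by linarith)
  have h4 : P ^ (θ - ε / 2) ≤ P ^ ((θ - ε / 4) * (1 - p)) * exp ((1 / p + 1) * log P ^ (1 / 2 : ℝ)) := by
    refine hM.trans (h1.trans ?_)
    apply mul_le_mul h3 _ (exp_pos _).le (by positivity)
    exact exp_le_exp.2 (mul_le_mul_of_nonneg_left h2 (by positivity))
  have h5 : P ^ ((θ - ε / 4) * (1 - p)) * exp ((1 / p + 1) * log P ^ (1 / 2 : ℝ)) < P ^ (θ - ε / 2) := by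
    have e1 : P ^ (θ - ε / 2) = P ^ ((θ - ε / 4) * (1 - p)) * exp (g * log P) := by
      rw [mul_comm g, ← rpow_def_of_pos hP0, ← rpow_add hP0]
      congr 1
      rw [hg]
      ring
    rw [e1]
    apply mul_lt_mul_of_pos_left _ (by positivity)
    exact exp_lt_exp.2 hP
  linarith

end Pool.Agent.NH20.SD
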