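import Pool.Agent.NH20.SD.Mnb
import Pool.Agent.NH20.SD.Rankin
import Pool.Agent.NH20.SD.Burg

/-!
# Small split primes of every quadratic field, in terms of the largest prime factor of the discriminant
-/

set_option autoImplicit false

namespace Pool.Agent.NH20.SD

open Finset Filter Real Pool.Agent.H568.GR

/-- `d` is `1` or the discriminant of a quadratic field -/
def Fund (d : ℤ) : Prop := (d % 4 = 1 ∧ Squarefree d) ∨
  ∃ m : ℤ, d = 4 * m ∧ (m % 4 = 2 ∨ m % 4 = 3) ∧ Squarefree m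

theorem odd_part (m : ℤ) (hm : Squarefree m) : ∃ e q : ℕ, e ≤ 1 ∧ Odd q ∧ Squarefree q ∧
    m.natAbs = 2 ^ e * q := by
  have hs : Squarefree m.natAbs := Int.squarefree_natAbs.2 hm
  rcases Nat.even_or_odd m.natAbs with h | h
  · obtain ⟨k, hk⟩ := h.two_dvd
    refine ⟨1, k, le_rfl, ?_, ?_, by rw [pow_one, hk]⟩
    · by_contra hcon
      rw [Nat.not_odd_iff_even] at hcon
      obtain ⟨j, hj⟩ := hcon.two_dvd
      have h4 : 2 * 2 ∣ m.natAbs := ⟨j, by rw [hk, hj]; ring⟩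
      have := hs 2 h4
      exact absurd (Nat.isUnit_iff.mp this) (by norm_num)
    · exact hs.squarefree_of_dvd ⟨2, by rw [hk]; ring⟩
  · exact ⟨0, m.natAbs, by norm_num, h, hs, by rw [pow_zero, one_mul]⟩

theorem fund_shape (d : ℤ) (hd : Fund d) : ∃ a q : ℕ, a ≤ 3 ∧ Odd q ∧ Squarefree q ∧
    d.natAbs = 2 ^ a * q := by
  rcases hd with ⟨_, h2⟩ | ⟨m, rfl, _, h3⟩
  · obtain ⟨e, q, he, hq, hs, h⟩ := odd_part d h2
    exact ⟨e, q, by omega, hq, hs, h⟩
  · obtain ⟨e, q, he, hq, hs, h⟩ := odd_part m h3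
    refine ⟨e + 2, q, by omega, hq, hs, ?_⟩
    rw [Int.natAbs_mul, h]
    simp only [Int.reduceAbs, pow_add]
    ring

theorem fund_mod (d : ℤ) (hd : Fund d) : d % 4 = 0 ∨ d % 4 = 1 := by
  rcases hd with ⟨h1, _⟩ | ⟨m, rfl, _, _⟩
  · right; exact h1
  · left; omega

/-- an odd prime with `(d / p) = 1` splits -/
theorem splits_of (d : ℤ) (hd : Fund d) (p : ℕ) (hp : p.Prime) (hp2 : p ≠ 2)
    (hJ : jacobiSym d p = 1) : ¬ (p : ℤ) ∣ d ∧ ∃ x : ℤ, (4 * (p : ℤ)) ∣ x ^ 2 - d := by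
  have : Fact p.Prime := ⟨hp⟩
  have hL : legendreSym p d = 1 := by rw [jacobiSym.legendreSym.to_jacobiSym, hJ]
  have hnd : ¬ (p : ℤ) ∣ d := by
    intro h
    have h0 : legendreSym p d = 0 := (legendreSym.eq_zero_iff p d).2 ((ZMod.intCast_zmod_eq_zero_iff_dvd d p).2 h)
    omega
  refine ⟨hnd, ?_⟩
  have hne : ((d : ℤ) : ZMod p) ≠ 0 := fun h => hnd ((ZMod.intCast_zmod_eq_zero_iff_dvd d p).1 h)
  obtain ⟨y, hy⟩ := (legendreSym.eq_one_iff p hne).1 hL
  have hy' : (p : ℤ) ∣ (y.val : ℤ) ^ 2 - d := by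
    rw [← ZMod.intCast_zmod_eq_zero_iff_dvd]
    push_cast
    rw [ZMod.natCast_zmod_val, hy]
    ring
  -- adjust the parity
  have hpodd : (p : ℤ) % 2 = 1 := by
    have := hp.odd_of_ne_two hp2
    rw [Nat.odd_iff] at this
    omega
  obtain ⟨x, hx1, hx2⟩ : ∃ x : ℤ, (p : ℤ) ∣ x ^ 2 - d ∧ x % 2 = d % 2 := by
    by_cases h : (y.val : ℤ) % 2 = d % 2
    · exact ⟨y.val, hy', h⟩
    · refine ⟨y.val + p, ?_, by omega⟩
      have : ((y.val : ℤ) + p) ^ 2 - d = ((y.val : ℤ) ^ 2 - d) + p * (2 * y.val + p) := by ring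
      rw [this]
      exact dvd_add hy' (dvd_mul_right _ _)
  refine ⟨x, ?_⟩
  have h4 : (4 : ℤ) ∣ x ^ 2 - d := by
    have hm := fund_mod d hd
    rcases Int.even_or_odd x with ⟨k, hk⟩ | ⟨k, hk⟩
    · have hd0 : d % 4 = 0 := by omega
      have : x ^ 2 = 4 * k ^ 2 := by rw [hk]; ring
      rw [this]
      omega
    · have hd1 : d % 4 = 1 := by omega
      have : x ^ 2 = 4 * (k ^ 2 + k) + 1 := by rw [hk]; ring
      rw [this]
      omega
  have hcop : IsCoprime (4 : ℤ) (p : ℤ) := by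
    have h1 : Nat.Coprime (2 ^ 2) p := Nat.Coprime.pow_left 2 ((Nat.coprime_primes Nat.prime_two hp).2 (Ne.symm hp2))
    have h2 := Nat.isCoprime_iff_coprime.2 h1
    push_cast at h2
    exact h2
  exact hcop.mul_dvd h4 hx1

/-- the primes `p < t` which split -/
def SplitSet (d : ℤ) (t : ℝ) : Set ℕ := {p : ℕ | p.Prime ∧ (p : ℝ) < t ∧ ¬ (p : ℤ) ∣ d ∧
  ∃ x : ℤ, (4 * (p : ℤ)) ∣ x ^ 2 - d}

theorem splitSet_finite (d : ℤ) (t : ℝ) : (SplitSet d t).Finite := by
  refine (Set.finite_Iio (⌈t⌉₊ + 1)).subset fun p hp => ?_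
  rw [Set.mem_Iio]
  have h1 : (p : ℝ) < t := hp.2.1
  have h2 := Nat.le_ceil t
  have : (p : ℝ) < ⌈t⌉₊ := by linarith
  have : p < ⌈t⌉₊ := by exact_mod_cast this
  omega

theorem spl_le (d : ℤ) (hd : Fund d) (N : ℕ) (t : ℝ) (hN : (N : ℝ) < t) :
    ((SPl d N).card : ℝ) ≤ ((SplitSet d t).ncard : ℝ) := by
  have h : ((SPl d N : Finset ℕ) : Set ℕ) ⊆ SplitSet d t := by
    intro p hp
    rw [mem_coe, mem_SPl] at hp
    obtain ⟨h1, h2, h3, h4⟩ := hp
    have h5 := splits_of d hd p h2 h3 h4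
    refine ⟨h2, ?_, h5.1, h5.2⟩
    have : (p : ℝ) ≤ N := by exact_mod_cast h1
    linarith
  have h2 := Set.ncard_le_ncard h (splitSet_finite d t)
  rw [Set.ncard_coe_finset] at h2
  exact_mod_cast h2

/-- the case of a large prime factor (Burgess) -/
theorem case_burg (ε A : ℝ) (hε : 0 < ε) (hε1 : ε ≤ 1 / 4) (hA : 1 ≤ A) :
    ∀ᶠ P : ℝ in atTop, ∀ d : ℤ, |(d : ℝ)| = P → Fund d →
      log P ^ A ≤ ((SplitSet d (P ^ (1 / 4 + ε))).ncard : ℝ) := by
  set e : ℝ := min (ε / 2) (1 / (32 * A)) with he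
  have hA0 : 0 < A := by linarith
  have he0 : 0 < e := lt_min (by positivity) (by positivity)
  have he1 : e ≤ ε / 2 := min_le_left _ _
  have he2 : e ≤ 1 / (32 * A) := min_le_right _ _
  have he3 : e ≤ 1 / 32 := he2.trans (by
    apply one_div_le_one_div_of_le (by norm_num)
    linarith)
  set θ : ℝ := 1 / 4 + ε / 4 + e / 2 with hθ
  have hθ2 : θ ≤ 1 / 2 := by linarith
  have hθ8 : e ≤ θ / 8 := by linarith
  have hθA : e ≤ θ / (2 * A) := by
    refine he2.trans ?_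
    rw [div_le_div_iff₀ (by positivity) (by positivity)]
    nlinarith
  obtain ⟨δ, P1, hδ, hb⟩ := burg_cs (ε / 4) (by positivity) (by linarith)
  obtain ⟨P2, hm⟩ := mnb_all θ e δ he0 hθ8 hθ2 hδ
  filter_upwards [eventually_ge_atTop P1, eventually_ge_atTop P2, many θ e A he0 hθ8 hA hθA,
    eventually_gt_atTop 1] with P h1 h2 h3 h4 d hdP hd
  subst hdP
  obtain ⟨a, q, ha, hqo, hqs, hdq⟩ := fund_shape d hd
  have h5 := hm d a q h2 ha hqo hqs hdq (fun x => by
    have h6 := hb d a q h1 ha hqo hqs hdq x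
    have h7 : θ - e / 2 = 1 / 4 + ε / 4 := by rw [hθ]; ring
    rw [h7]
    exact h6)
  refine (h3 d h5).trans (spl_le d hd _ _ ?_)
  refine lt_of_le_of_lt (Nat.floor_le (by positivity)) ?_
  exact rpow_lt_rpow_of_exponent_lt h4 (by linarith)

/-- the case without large prime factors, for one exponent -/
theorem case_smooth (s g A : ℝ) (hg : 0 < g) (hg1 : g ≤ 1 / 16) (hs : g ≤ s) (hs1 : s ≤ 1 / 4 + g)
    (hA : 1 ≤ A) :
    ∀ᶠ P : ℝ in atTop, ∀ d : ℤ, |(d : ℝ)| = P → Fund d →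
      (∀ p : ℕ, p.Prime → (p : ℤ) ∣ d → (p : ℝ) ≤ P ^ s) →
      log P ^ A ≤ ((SplitSet d (P ^ (s + 2 * g))).ncard : ℝ) := by
  have hA0 : 0 < A := by linarith
  set e : ℝ := min (g / 4) (g / A) with he
  have he0 : 0 < e := lt_min (by positivity) (by positivity)
  have he1 : e ≤ g / 4 := min_le_left _ _
  have he2 : e ≤ g / A := min_le_right _ _
  set θ : ℝ := s + g + e / 2 with hθ
  have hθ2 : θ ≤ 1 / 2 := by linarith
  have hθ8 : e ≤ θ / 8 := by linarith
  have hθA : e ≤ θ / (2 * A) := by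
    refine he2.trans ?_
    rw [div_le_div_iff₀ (by positivity) (by positivity)]
    nlinarith
  obtain ⟨δ, P1, hδ, hb⟩ := cs' (s + g) g hg (by linarith) (by linarith)
  obtain ⟨P2, hm⟩ := mnb_all θ e δ he0 hθ8 hθ2 hδ
  filter_upwards [eventually_ge_atTop P1, eventually_ge_atTop P2, many θ e A he0 hθ8 hA hθA,
    eventually_gt_atTop 1] with P h1 h2 h3 h4 d hdP hd hsm
  subst hdP
  obtain ⟨a, q, ha, hqo, hqs, hdq⟩ := fund_shape d hd
  have h5 := hm d a q h2 ha hqo hqs hdq (fun x => by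
    have h6 := hb d a q h1 ha hqo hqs hdq (by
      intro p hp hpq
      have h8 : s + g - g = s := by ring
      rw [h8]
      apply hsm p hp
      rw [Int.natCast_dvd, hdq]
      exact Dvd.dvd.mul_left hpq _) x
    have h7 : θ - e / 2 = s + g := by rw [hθ]; ring
    rw [h7]
    exact h6)
  refine (h3 d h5).trans (spl_le d hd _ _ ?_)
  refine lt_of_le_of_lt (Nat.floor_le (by positivity)) ?_
  exact rpow_lt_rpow_of_exponent_lt h4 (by linarith)

/-- the largest prime factor -/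
def lpf (d : ℤ) : ℕ := d.natAbs.primeFactors.sup id

theorem le_lpf (d : ℤ) (hd : d ≠ 0) (p : ℕ) (hp : p.Prime) (h : (p : ℤ) ∣ d) : p ≤ lpf d := by
  have : p ∈ d.natAbs.primeFactors := by
    rw [Nat.mem_primeFactors]
    exact ⟨hp, Int.natCast_dvd.1 h, Int.natAbs_ne_zero.2 hd⟩
  exact Finset.le_sup (f := id) this

theorem lpf_ge_two (d : ℤ) (hd : 2 ≤ d.natAbs) : 2 ≤ lpf d := by
  obtain ⟨p, hp, hpd⟩ := Nat.exists_prime_and_dvd (n := d.natAbs) (by omega)
  have h := le_lpf d (by rintro rfl; simp at hd) p hp (Int.natCast_dvd.2 hpd)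
  exact hp.two_le.trans h

theorem mono_set (d : ℤ) {s t : ℝ} (h : s ≤ t) :
    ((SplitSet d s).ncard : ℝ) ≤ ((SplitSet d t).ncard : ℝ) := by
  have : SplitSet d s ⊆ SplitSet d t := fun p hp => ⟨hp.1, hp.2.1.trans_le h, hp.2.2⟩
  exact_mod_cast Set.ncard_le_ncard this (splitSet_finite d t)

theorem main (ε A : ℝ) (hε : 0 < ε) : ∃ D₀ : ℝ, ∀ d : ℤ, Fund d → D₀ ≤ |(d : ℝ)| →
    log |(d : ℝ)| ^ A ≤ ((SplitSet d (|(d : ℝ)| ^ ε *
      min (|(d : ℝ)| ^ (1 / 4 : ℝ)) (lpf d))).ncard : ℝ) := by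
  -- reductions
  wlog hA : 1 ≤ A generalizing A
  · obtain ⟨D₀, h⟩ := this 1 le_rfl
    refine ⟨max D₀ (exp 1), fun d hd hD => ?_⟩
    have h1 := h d hd ((le_max_left _ _).trans hD)
    refine le_trans ?_ h1
    apply rpow_le_rpow_of_exponent_le _ (by linarith)
    rw [le_log_iff_exp_le (lt_of_lt_of_le (exp_pos 1) ((le_max_right _ _).trans hD))]
    exact (le_max_right _ _).trans hD
  wlog hε1 : ε ≤ 1 / 4 generalizing ε
  · obtain ⟨D₀, h⟩ := this (1 / 4) (by norm_num) le_rfl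
    refine ⟨max D₀ 1, fun d hd hD => ?_⟩
    have h1 := h d hd ((le_max_left _ _).trans hD)
    refine h1.trans (mono_set d ?_)
    apply mul_le_mul_of_nonneg_right _ (le_min (by positivity) (Nat.cast_nonneg _))
    exact rpow_le_rpow_of_exponent_le ((le_max_right _ _).trans hD) (by linarith)
  -- the grid
  set g : ℝ := ε / 4 with hg
  have hg0 : 0 < g := by positivity
  obtain ⟨J, hJ⟩ := exists_nat_ge (1 / (4 * g))
  have hsm : ∀ᶠ P : ℝ in atTop, ∀ j ∈ Finset.range (J + 1), ((j : ℝ) * g ≤ 1 / 4) →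
      ∀ d : ℤ, |(d : ℝ)| = P → Fund d →
      (∀ p : ℕ, p.Prime → (p : ℤ) ∣ d → (p : ℝ) ≤ P ^ ((j + 1 : ℝ) * g)) →
      log P ^ A ≤ ((SplitSet d (P ^ ((j + 1 : ℝ) * g + 2 * g))).ncard : ℝ) := by
    rw [Filter.eventually_all_finset]
    intro j _
    by_cases hj : (j : ℝ) * g ≤ 1 / 4
    · have h := case_smooth ((j + 1 : ℝ) * g) g A hg0 (by linarith) (by
        have : (0 : ℝ) ≤ j * g := by positivity
        nlinarith) (by nlinarith) hA
      filter_upwards [h] with P hP _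
      exact hP
    · filter_upwards with P h
      exact absurd h hj
  obtain ⟨D₀, hD₀⟩ := eventually_atTop.1 ((case_burg ε A hε hε1 hA).and
    (hsm.and (eventually_ge_atTop (4 : ℝ))))
  refine ⟨D₀, fun d hd hD => ?_⟩
  obtain ⟨h1, h2, h3⟩ := hD₀ _ hD
  set P : ℝ := |(d : ℝ)| with hP
  have hP0 : 0 < P := by linarith
  have hP1 : 1 < P := by linarith
  have hd2 : 2 ≤ d.natAbs := by
    have : (4 : ℝ) ≤ (d.natAbs : ℝ) := by rw [Nat.cast_natAbs, Int.cast_abs]; exact h3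
    have : 4 ≤ d.natAbs := by exact_mod_cast this
    omega
  have hd0 : d ≠ 0 := by
    rintro rfl
    simp at hd2
  have hL2 := lpf_ge_two d hd2
  have hL2r : (2 : ℝ) ≤ (lpf d : ℝ) := by exact_mod_cast hL2
  rcases le_total (P ^ (1 / 4 : ℝ)) (lpf d : ℝ) with hc | hc
  · rw [min_eq_left hc, ← rpow_add hP0, add_comm]
    exact h1 d rfl hd
  · rw [min_eq_right hc]
    -- the exponent of the largest prime factor
    set t : ℝ := log (lpf d) / log P with ht
    have hlP : 0 < log P := log_pos hP1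
    have hl0 : (0 : ℝ) < lpf d := by linarith
    have hlt : (lpf d : ℝ) = P ^ t := by
      rw [ht, rpow_def_of_pos hP0, mul_div_cancel₀ _ hlP.ne', exp_log hl0]
    have ht0 : 0 ≤ t := by
      apply div_nonneg (log_nonneg (by linarith)) hlP.le
    have ht4 : t ≤ 1 / 4 := by
      rw [hlt] at hc
      exact (rpow_le_rpow_left_iff hP1).1 hc
    set j := ⌊t / g⌋₊ with hj
    have hj1 : (j : ℝ) * g ≤ t := by
      have := Nat.floor_le (div_nonneg ht0 hg0.le)
      rw [← hj, le_div_iff₀ hg0] at this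
      exact this
    have hj2 : t ≤ (j + 1 : ℝ) * g := by
      have := (Nat.lt_floor_add_one (t / g)).le
      rw [← hj, div_le_iff₀ hg0] at this
      exact this
    have hjJ : j ∈ Finset.range (J + 1) := by
      rw [mem_range]
      have : (j : ℝ) ≤ J := by
        refine le_trans ?_ hJ
        rw [le_div_iff₀ (by positivity)]
        nlinarith
      have : j ≤ J := by exact_mod_cast this
      omega
    have h4 := h2 j hjJ (by linarith) d rfl hd (fun p hp hpd => by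
      have h5 : (p : ℝ) ≤ lpf d := by exact_mod_cast le_lpf d hd0 p hp hpd
      refine h5.trans ?_
      rw [hlt]
      exact rpow_le_rpow_of_exponent_le hP1.le hj2)
    refine h4.trans (mono_set d ?_)
    rw [hlt, ← rpow_add hP0]
    apply rpow_le_rpow_of_exponent_le hP1.le
    have : (j + 1 : ℝ) * g = j * g + g := by ring
    rw [this]
    linarith

end Pool.Agent.NH20.SD
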