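import Pool.Agent.H568.GR.All

/-!
# Many squarefree products of split primes, from short character sums

Adapted from `Pool.Agent.TH408.GR.Mnb` (starting files): the bound for the short character sums of the
discriminant is a hypothesis on the discriminant.
-/

set_option autoImplicit false

namespace Pool.Agent.NH20.SD

open Finset Filter Real Pool.Agent.H568.GR Pool.Agent.TH408.GR

set_option maxHeartbeats 4000000 in
theorem mnb_gen (hDEC : S_DEC) (hL : S_L) (hCNT : S_CNT) (hREC : S_REC) (hDIV : S_DIV)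
    (θ ε δ : ℝ) (hε : 0 < ε) (hθ : ε ≤ θ / 8) (hθ2 : θ ≤ 1 / 2) (hδ : 0 < δ) :
    ∃ P0 : ℝ, ∀ (D : ℤ) (a q : ℕ),
      P0 ≤ |(D : ℝ)| → a ≤ 3 → Odd q → Squarefree q → D.natAbs = 2 ^ a * q →
      (∀ x : ℕ, |∑ n ∈ (Icc 1 x).filter (fun n => Odd n), ((jacobiSym D n : ℤ) : ℝ)| ≤
        |(D : ℝ)| ^ (-δ) * (x + |(D : ℝ)| ^ (θ - ε / 2))) →
      |(D : ℝ)| ^ (θ - ε / 2) ≤ (MM D ⌊|(D : ℝ)| ^ (θ - ε / 4)⌋₊).card := by
  set dl := min δ (ε / 100) with hdl
  have hdl0 : 0 < dl := lt_min hδ (by positivity)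
  have hdlδ : dl ≤ δ := min_le_left _ _
  have hdlε : dl ≤ ε / 100 := min_le_right _ _
  obtain ⟨c, hc, hLc⟩ := hL (dl / 8) (by positivity)
  obtain ⟨C, hC, hdiv⟩ := hDIV (dl / 16) (by positivity)
  have E : ∀ᶠ P : ℝ in atTop, (9 ≤ P ∧ 2 ≤ P ^ (θ - ε / 4) ∧
      2 ≤ P ^ (ε / 4 - dl / 2) ∧ (1 + 2 * log P ≤ P ^ (dl / 2)) ∧
      4 * P ^ (-(1 : ℝ)) ≤ (c / 16) * P ^ (-(dl / 8)) ∧
      32 * P ^ (-(dl / 2)) ≤ (c / 8) * P ^ (-(dl / 8)) ∧
      4 * P ^ (-(θ - ε / 4)) ≤ (c / 16) * P ^ (-(dl / 8)) ∧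
      160 * C ^ 2 / c ≤ P ^ (dl / 2) ∧ 32 * C ^ 2 / c ≤ P ^ (ε / 4 - 25 / 4 * dl)) := by
    refine (eventually_ge_atTop 9).and
      (((tendsto_rpow_atTop (by linarith)).eventually_ge_atTop 2).and
      (((tendsto_rpow_atTop (by linarith)).eventually_ge_atTop 2).and
      ((ev_log _ (by linarith)).and
      ((ev_le _ _ _ _ (by linarith) (by positivity)).and
      ((ev_le _ _ _ _ (by linarith) (by positivity)).and
      ((ev_le _ _ _ _ (by linarith) (by positivity)).and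
      (((tendsto_rpow_atTop (by linarith)).eventually_ge_atTop _).and
      ((tendsto_rpow_atTop (by linarith)).eventually_ge_atTop _))))))))
  obtain ⟨P0, hP0⟩ := eventually_atTop.1 E
  refine ⟨P0, fun D a q hP ha hq hsq hD hsh => ?_⟩
  set P : ℝ := |(D : ℝ)| with hPdef
  obtain ⟨hP9, e2, e3, elog, e5, e6, e7, e8, e9⟩ := hP0 P hP
  have hPpos : 0 < P := by linarith
  have hP1 : 1 ≤ P := by linarith
  have hD0 : D ≠ 0 := by
    rintro rfl
    simp at hPdef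
    linarith
  have hPnat : P = (D.natAbs : ℝ) := by
    rw [hPdef, Nat.cast_natAbs, Int.cast_abs]
  -- q is not a square
  have hq2 : 2 ≤ q := by
    by_contra hlt
    have hq1 : q ≤ 1 := by omega
    have h1 : D.natAbs ≤ 8 := by
      rw [hD]
      calc 2 ^ a * q ≤ 2 ^ 3 * 1 :=
            Nat.mul_le_mul (Nat.pow_le_pow_right (by norm_num) ha) hq1
        _ = 8 := by norm_num
    have h2 : P ≤ 8 := by rw [hPnat]; exact_mod_cast h1
    linarith
  have hnsq : ¬ IsSquare q := by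
    rintro ⟨r, hr⟩
    have := hsq r ⟨1, by rw [mul_one]; exact hr⟩
    rw [Nat.isUnit_iff] at this
    subst this
    omega
  obtain ⟨L, hL1, hL2⟩ := hLc D hD0 ((hREC D a q hq hD).2 hnsq)
  set N : ℕ := ⌊P ^ (θ - ε / 4)⌋₊ with hN
  have hNle : (N : ℝ) ≤ P ^ (θ - ε / 4) := Nat.floor_le (by positivity)
  have hNge : P ^ (θ - ε / 4) / 2 ≤ N := by
    have := Nat.lt_floor_add_one (P ^ (θ - ε / 4))
    rw [← hN] at this
    linarith
  have hN1' : (1 : ℝ) ≤ N := by linarith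
  have hN1 : 1 ≤ N := by exact_mod_cast hN1'
  have hNP : (N : ℝ) ≤ P := by
    calc (N : ℝ) ≤ P ^ (θ - ε / 4) := hNle
      _ ≤ P ^ (1 : ℝ) := rpow_le_rpow_of_exponent_le hP1 (by linarith)
      _ = P := rpow_one P
  set v : ℝ := P ^ (-(dl / 2)) with hv
  have hv0 : 0 < v := rpow_pos_of_pos hPpos _
  have hv1 : v ≤ 1 := rpow_le_one_of_one_le_of_nonpos hP1 (by linarith)
  set u : ℝ := P ^ (-(dl / 8)) with hu
  have hu0 : 0 < u := rpow_pos_of_pos hPpos _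
  set y : ℕ := ⌈(N : ℝ) * v⌉₊ with hy
  have hy1 : 1 ≤ y := Nat.one_le_ceil_iff.2 (by positivity)
  have hyN : y ≤ N := Nat.ceil_le.2 (by nlinarith)
  have hyge : (N : ℝ) * v ≤ y := Nat.le_ceil _
  have hyle : (y : ℝ) ≤ N * v + 1 := (Nat.ceil_lt_add_one (by positivity)).le
  have hNZ : N ≤ D.natAbs ^ 2 := by
    have h1 : (N : ℝ) ≤ ((D.natAbs ^ 2 : ℕ) : ℝ) := by
      push_cast
      rw [← hPnat]
      nlinarith
    exact_mod_cast h1
  have hdlP : P ^ (-dl) = v * v := by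
    rw [hv, ← rpow_add hPpos]; congr 1; ring
  have hN0y : P ^ (θ - ε / 2) ≤ (y : ℝ) := by
    refine le_trans ?_ hyge
    have h1 : P ^ (θ - ε / 4) * v = P ^ (θ - ε / 2) * P ^ (ε / 4 - dl / 2) := by
      rw [hv, ← rpow_add hPpos, ← rpow_add hPpos]; congr 1; ring
    have h2 : 0 < P ^ (θ - ε / 2) := rpow_pos_of_pos hPpos _
    have h3 : P ^ (θ - ε / 4) / 2 * v ≤ N * v := mul_le_mul_of_nonneg_right hNge hv0.le
    nlinarith
  have hshort : ∀ x : ℕ, |∑ n ∈ (Icc 1 x).filter (fun n => Odd n), ((jacobiSym D n : ℤ) : ℝ)| ≤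
      P ^ (-dl) * (x + P ^ (θ - ε / 2)) := by
    intro x
    refine (hsh x).trans ?_
    refine mul_le_mul_of_nonneg_right
        (rpow_le_rpow_of_exponent_le hP1 (neg_le_neg hdlδ)) (by positivity)
  have hZ1 : 1 ≤ D.natAbs ^ 2 := hN1.trans hNZ
  have hLZ := hL2 (D.natAbs ^ 2) hZ1
  have he : 8 * |(D : ℝ)| / ((D.natAbs ^ 2 : ℕ) : ℝ) = 8 / P := by
    push_cast
    rw [← hPnat, ← hPdef, div_eq_div_iff (by positivity) (by positivity)]
    ring
  rw [he] at hLZ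
  have hcnt := hCNT D (P ^ (-dl)) (P ^ (θ - ε / 2)) L (8 / P) N y (D.natAbs ^ 2)
    (rpow_pos_of_pos hPpos _) (rpow_le_one_of_one_le_of_nonpos hP1 (by linarith))
    (one_le_rpow hP1 (by linarith)) hy1 hyN hNZ hN0y (by positivity) hshort hLZ
  set A : ℝ := ∑ n ∈ (Icc 1 N).filter (fun n => Odd n), ∑ d ∈ n.divisors,
    ((jacobiSym D d : ℤ) : ℝ) with hA
  have hA0 : 0 ≤ A := by
    refine sum_nonneg fun n hn => ?_
    rw [mem_filter, mem_Icc] at hn
    exact sum_div_nonneg D (by omega)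
  rw [abs_of_nonneg hA0] at hcnt
  -- lower bound
  have hlogZ : log ((D.natAbs ^ 2 : ℕ) : ℝ) = 2 * log P := by
    push_cast
    rw [← hPnat, log_pow]
    norm_num
  rw [hlogZ, hdlP] at hcnt
  have hLu : c * u ≤ |L| := hL1
  have h8P : 8 / P ≤ c / 8 * u := by
    have : P ^ (-(1 : ℝ)) = 1 / P := by rw [rpow_neg hPpos.le, rpow_one, one_div]
    rw [this] at e5
    have h2 : 8 / P = 2 * (4 * (1 / P)) := by ring
    rw [h2]
    linarith
  have hvlog : v * v * (1 + 2 * log P) ≤ v := by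
    have h1 : v * P ^ (dl / 2) = 1 := by
      rw [hv, ← rpow_add hPpos]
      have : -(dl / 2) + dl / 2 = 0 := by ring
      rw [this, rpow_zero]
    calc v * v * (1 + 2 * log P) ≤ v * v * P ^ (dl / 2) :=
          mul_le_mul_of_nonneg_left elog (by positivity)
      _ = v * (v * P ^ (dl / 2)) := by ring
      _ = v := by rw [h1, mul_one]
  have hy0 : (0 : ℝ) < y := by exact_mod_cast hy1
  have hquot : 20 * (v * v) * (N : ℝ) ^ 2 / y ≤ 20 * (N * v) := by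
    rw [div_le_iff₀ hy0]
    nlinarith [mul_le_mul_of_nonneg_left hyge (show 0 ≤ 20 * ((N : ℝ) * v) by positivity)]
  have h2N : 4 ≤ c / 8 * u * N := by
    have h1 : P ^ (-(θ - ε / 4)) * P ^ (θ - ε / 4) = 1 := by
      rw [← rpow_add hPpos]
      have : -(θ - ε / 4) + (θ - ε / 4) = 0 := by ring
      rw [this, rpow_zero]
    have h2 : 0 < P ^ (θ - ε / 4) := rpow_pos_of_pos hPpos _
    have h3 : 4 ≤ c / 16 * u * P ^ (θ - ε / 4) := by
      calc (4 : ℝ) = 4 * P ^ (-(θ - ε / 4)) * P ^ (θ - ε / 4) := by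
            rw [mul_assoc, h1, mul_one]
        _ ≤ c / 16 * u * P ^ (θ - ε / 4) := mul_le_mul_of_nonneg_right e7 h2.le
    have h4 : c / 16 * u * P ^ (θ - ε / 4) ≤ c / 8 * u * N := by
      have : c / 8 * u * (P ^ (θ - ε / 4) / 2) ≤ c / 8 * u * N :=
        mul_le_mul_of_nonneg_left hNge (by positivity)
      linarith
    linarith
  have hlow : c / 8 * N * u ≤ A := by
    refine le_trans ?_ hcnt
    have h1 : (N : ℝ) / 2 * (c * u - c / 8 * u - 20 * v) ≤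
        (N : ℝ) / 2 * (|L| - 8 / P - 20 * (v * v) * (1 + 2 * log P)) := by
      apply mul_le_mul_of_nonneg_left _ (by positivity)
      linarith
    have h2 : (N : ℝ) * (32 * v) ≤ N * (c / 8 * u) := mul_le_mul_of_nonneg_left e6 (by positivity)
    have h3 : 0 ≤ c * u * N := by positivity
    nlinarith
  -- upper bound
  have hB1 : (1 : ℝ) ≤ P ^ (3 * dl) := one_le_rpow hP1 (by linarith)
  have hdec := hDEC D hD0 N (P ^ (3 * dl)) (C * P ^ (dl / 16)) hB1 (by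
    intro n hn
    rw [mem_Icc] at hn
    refine (hdiv n hn.1).trans ?_
    apply mul_le_mul_of_nonneg_left _ (by linarith)
    apply rpow_le_rpow (by positivity) _ (by positivity)
    refine le_trans ?_ hNP
    exact_mod_cast hn.2)
  rw [← hA] at hdec
  have htau : (D.natAbs.divisors.card : ℝ) ≤ C * P ^ (dl / 16) := by
    rw [hPnat]
    exact hdiv _ (Int.natAbs_pos.2 hD0)
  have hBsq : (P ^ (3 * dl)) ^ 2 = P ^ (6 * dl) := by
    rw [← rpow_natCast, ← rpow_mul hPpos.le]; congr 1; push_cast; ring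
  have hBq : (P ^ (3 * dl)) ^ (1 / 4 : ℝ) = P ^ (3 / 4 * dl) := by
    rw [← rpow_mul hPpos.le]; congr 1; ring
  rw [hBsq, hBq] at hdec
  set M : ℝ := ((MM D N).card : ℝ) with hM
  have hM0 : 0 ≤ M := by positivity
  have hup : A ≤ C ^ 2 * P ^ (dl / 8) * (P ^ (6 * dl) * M + 10 * N / P ^ (3 / 4 * dl)) := by
    refine hdec.trans ?_
    apply mul_le_mul_of_nonneg_right _ (by positivity)
    have h1 : P ^ (dl / 8) = P ^ (dl / 16) * P ^ (dl / 16) := by
      rw [← rpow_add hPpos]; congr 1; ring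
    rw [h1]
    calc C * P ^ (dl / 16) * (D.natAbs.divisors.card : ℝ)
        ≤ C * P ^ (dl / 16) * (C * P ^ (dl / 16)) :=
          mul_le_mul_of_nonneg_left htau (by positivity)
      _ = C ^ 2 * (P ^ (dl / 16) * P ^ (dl / 16)) := by ring
  have hsecond : C ^ 2 * P ^ (dl / 8) * (10 * N / P ^ (3 / 4 * dl)) ≤ c / 16 * N * u := by
    have h1 : P ^ (dl / 8) / P ^ (3 / 4 * dl) = P ^ (-(5 / 8 * dl)) := by
      rw [← rpow_sub hPpos]; congr 1; ring
    have h2 : u = P ^ (dl / 2) * P ^ (-(5 / 8 * dl)) := by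
      rw [hu, ← rpow_add hPpos]; congr 1; ring
    rw [div_le_iff₀ hc] at e8
    have h3 : 0 < P ^ (-(5 / 8 * dl)) := rpow_pos_of_pos hPpos _
    calc C ^ 2 * P ^ (dl / 8) * (10 * N / P ^ (3 / 4 * dl))
        = 10 * C ^ 2 * N * (P ^ (dl / 8) / P ^ (3 / 4 * dl)) := by ring
      _ = (160 * C ^ 2) * (N / 16 * P ^ (-(5 / 8 * dl))) := by rw [h1]; ring
      _ ≤ (P ^ (dl / 2) * c) * (N / 16 * P ^ (-(5 / 8 * dl))) :=
          mul_le_mul_of_nonneg_right e8 (by positivity)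
      _ = c / 16 * N * u := by rw [h2]; ring
  have hmain : c / 16 * N * u ≤ C ^ 2 * P ^ (49 / 8 * dl) * M := by
    have h1 : C ^ 2 * P ^ (dl / 8) * (P ^ (6 * dl) * M) = C ^ 2 * P ^ (49 / 8 * dl) * M := by
      have : P ^ (49 / 8 * dl) = P ^ (dl / 8) * P ^ (6 * dl) := by
        rw [← rpow_add hPpos]; congr 1; ring
      rw [this]; ring
    rw [mul_add, h1] at hup
    linarith
  have hW : C ^ 2 * P ^ (49 / 8 * dl) * P ^ (θ - ε / 2) ≤ c / 16 * N * u := by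
    rw [div_le_iff₀ hc] at e9
    have h1 : P ^ (ε / 4 - 25 / 4 * dl) * (P ^ (49 / 8 * dl) * P ^ (θ - ε / 2)) =
        P ^ (θ - ε / 4) * u := by
      rw [hu, ← rpow_add hPpos, ← rpow_add hPpos, ← rpow_add hPpos]; congr 1; ring
    have h2 : 0 < P ^ (49 / 8 * dl) * P ^ (θ - ε / 2) := by positivity
    calc C ^ 2 * P ^ (49 / 8 * dl) * P ^ (θ - ε / 2)
        = (32 * C ^ 2) * (P ^ (49 / 8 * dl) * P ^ (θ - ε / 2)) / 32 := by ring
      _ ≤ (P ^ (ε / 4 - 25 / 4 * dl) * c) * (P ^ (49 / 8 * dl) * P ^ (θ - ε / 2)) / 32 := by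
          gcongr
      _ = c / 32 * (P ^ (ε / 4 - 25 / 4 * dl) * (P ^ (49 / 8 * dl) * P ^ (θ - ε / 2))) := by
          ring
      _ = c / 16 * (P ^ (θ - ε / 4) / 2) * u := by
          rw [h1]; ring
      _ ≤ c / 16 * N * u := by gcongr
  have hfin : C ^ 2 * P ^ (49 / 8 * dl) * P ^ (θ - ε / 2) ≤ C ^ 2 * P ^ (49 / 8 * dl) * M :=
    hW.trans hmain
  exact le_of_mul_le_mul_left hfin (by positivity)

/-- the same with the hypotheses discharged -/
theorem mnb_all (θ ε δ : ℝ) (hε : 0 < ε) (hθ : ε ≤ θ / 8) (hθ2 : θ ≤ 1 / 2) (hδ : 0 < δ) :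
    ∃ P0 : ℝ, ∀ (D : ℤ) (a q : ℕ),
      P0 ≤ |(D : ℝ)| → a ≤ 3 → Odd q → Squarefree q → D.natAbs = 2 ^ a * q →
      (∀ x : ℕ, |∑ n ∈ (Icc 1 x).filter (fun n => Odd n), ((jacobiSym D n : ℤ) : ℝ)| ≤
        |(D : ℝ)| ^ (-δ) * (x + |(D : ℝ)| ^ (θ - ε / 2))) →
      |(D : ℝ)| ^ (θ - ε / 2) ≤ (MM D ⌊|(D : ℝ)| ^ (θ - ε / 4)⌋₊).card :=
  mnb_gen dec lval' cnt rec dvb θ ε δ hε hθ hθ2 hδ

end Pool.Agent.NH20.SD
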